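import Pool.Agent.H654R5.PT.Stm

/-! The composition. -/

namespace Pool.Agent.H654R5.PT.CMP

open Pool.Agent.NPC

theorem padTo_length (k : ℕ) (x : List Bool) (h : x.length ≤ k) : (padTo k x).length = k := by
  unfold padTo
  simp
  omega

theorem padTo_inj (k : ℕ) (x y : List Bool) (h : x.length = y.length) (e : padTo k x = padTo k y) :
    x = y := by
  unfold padTo at e
  exact (List.append_inj e h).1

/-- numerical relations -/
theorem params (hN : S_NUM) (g ν : ℕ) (hg : 1 ≤ g) (hν : nu1 g < ν) :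
    ∃ E r : ℕ, (∀ τ, kap g τ = τ + E + 12) ∧ K2 g = dd g + E + 13 ∧ padN g = 2 * g + 19 + E ∧
      tau2 g = 2 * dd g + 3 * g + 11 ∧ ν = 2 * dd g + E + 5 * g + 31 + r ∧ B0 g ν = r + 3 := by
  obtain ⟨_, _, _, _, h5, _, _⟩ := hN g hg
  have hk : ∀ τ, kap g τ = τ + (dd (gS g) + 3 * gS g) + 12 := by
    intro τ
    unfold kap
    omega
  have hK2 : K2 g = dd g + (dd (gS g) + 3 * gS g) + 13 := by
    unfold K2
    rw [hk]
  have hpad : padN g = 2 * g + 19 + (dd (gS g) + 3 * gS g) := by
    unfold padN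
    omega
  have hnu : nu1 g = 2 * dd g + (dd (gS g) + 3 * gS g) + 5 * g + 30 := by
    unfold nu1
    rw [hK2]
    omega
  refine ⟨dd (gS g) + 3 * gS g, ν - (2 * dd g + (dd (gS g) + 3 * gS g) + 5 * g + 31), hk, hK2, hpad,
    h5, by omega, ?_⟩
  unfold B0
  rw [hK2]
  omega

theorem mem_compo (g ν : ℕ) (x z : List Bool) : z ∈ compo g ν x ↔
    ∃ i < 2 ^ g, ∃ s ∈ es g (dd g) (padTo (2 ^ g) (x.drop i)), ∃ z' ∈ es g (tau2 g) x,
      E1 g (B0 g ν) (B0 g ν - 2) (padTo (2 ^ g) (x.take i)) s ++ z' = z := by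
  unfold compo
  simp only [List.mem_flatMap, List.mem_map, List.mem_range]

/-- `z` is a first part of an output for the item `x` split at `i` -/
def Hit (g B t i : ℕ) (esD : List Bool → List (List Bool)) (x z : List Bool) : Prop :=
  ∃ s ∈ esD (padTo (2 ^ g) (x.drop i)), E1 g B t (padTo (2 ^ g) (x.take i)) s = z

open Classical in
theorem core (hS : S_STR) (g B t D k2 : ℕ) (i : ℕ) (hi : i < 2 ^ g)
    (hEl : ∀ x s, (E1 g B t x s).length = t)
    (hEb : ∀ (W X : Finset (List Bool)), W ⊆ strs t → X ⊆ strs (2 ^ g) →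
      (∀ x ∈ X, 8 * W.card * 2 ^ dd g + 2 ^ t * 2 ^ dd g ≤
        8 * 2 ^ t * ((strs (dd g)).filter (fun s => E1 g B t x s ∈ W)).card) →
      X.card ≤ 2 ^ (3 * g + 8 + dd g + B))
    (hD : D = dd g)
    (esD : List Bool → List (List Bool))
    (hesl : ∀ x, ∀ z ∈ esD x, z.length = D) (kD : ℕ)
    (hes : ∀ X ⊆ strs (2 ^ g), 2 ^ kD ≤ X.card →
      7 * 2 ^ D < 8 * (X.biUnion (fun x => (esD x).toFinset)).card)
    (X : Finset (List Bool)) (hX : X ⊆ strs (2 ^ g)) (U : Finset (List Bool))
    (hU : ∀ u ∈ U, u.length = i ∧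
      2 * 2 ^ kD ≤ ((strs (2 ^ g - i)).filter (fun v => u ++ v ∈ X)).card)
    (M : ℕ) (hM : 2 ^ (M + 1) ≤ U.card) (hb : t + k2 = kD + M)
    (hB : 3 * g + 8 + dd g + B < M) :
    3 * 2 ^ t ≤ 4 * ((strs t).filter (fun z => 2 ^ k2 ≤ (X.filter (fun x =>
      Hit g B t i esD x z)).card)).card := by
  by_contra hcon
  push Not at hcon
  have hS' := hS
  obtain ⟨_, _, _, hmem, hcard⟩ := hS'
  set Xz : List Bool → Finset (List Bool) := fun z => X.filter (fun x =>
      Hit g B t i esD x z) with hXz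
  set W := (strs t).filter (fun z => 2 ^ k2 ≤ (Xz z).card) with hW
  set light := (strs t \ W).biUnion Xz with hlight
  have hlc : light.card ≤ 2 ^ t * 2 ^ k2 := by
    calc light.card ≤ ∑ z ∈ strs t \ W, (Xz z).card := Finset.card_biUnion_le
      _ ≤ ∑ z ∈ strs t \ W, 2 ^ k2 := by
          apply Finset.sum_le_sum
          intro z hz
          obtain ⟨hz1, hz2⟩ := Finset.mem_sdiff.1 hz
          by_contra hgt
          exact hz2 (Finset.mem_filter.2 ⟨hz1, (not_le.1 hgt).le⟩)
      _ = (strs t \ W).card * 2 ^ k2 := by rw [Finset.sum_const, smul_eq_mul]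
      _ ≤ 2 ^ t * 2 ^ k2 := by
          apply Nat.mul_le_mul_right
          rw [← hcard t]
          exact Finset.card_le_card Finset.sdiff_subset
  set L : List Bool → Finset (List Bool) := fun u =>
    (strs (2 ^ g - i)).filter (fun v => u ++ v ∈ light) with hL
  set bad := U.filter (fun u => 2 ^ kD < (L u).card) with hbad
  set good := U.filter (fun u => ¬ 2 ^ kD < (L u).card) with hgood
  have hbg : bad.card + good.card = U.card := Finset.card_filter_add_card_filter_not _
  have hbc : bad.card * 2 ^ kD ≤ light.card := by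
    calc bad.card * 2 ^ kD = ∑ u ∈ bad, 2 ^ kD := by rw [Finset.sum_const, smul_eq_mul]
      _ ≤ ∑ u ∈ bad, (L u).card := by
          apply Finset.sum_le_sum
          intro u hu
          exact (Finset.mem_filter.1 hu).2.le
      _ = ∑ u ∈ bad, ((L u).image (fun v => u ++ v)).card := by
          apply Finset.sum_congr rfl
          intro u _
          rw [Finset.card_image_of_injective _ (List.append_right_injective u)]
      _ = (bad.biUnion (fun u => (L u).image (fun v => u ++ v))).card := by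
          rw [Finset.card_biUnion]
          intro u hu u' hu' hne
          rw [Function.onFun, Finset.disjoint_left]
          intro x hx hx'
          obtain ⟨v, _, rfl⟩ := Finset.mem_image.1 hx
          obtain ⟨v', _, he⟩ := Finset.mem_image.1 hx'
          apply hne
          have h1 := (hU u (Finset.mem_filter.1 hu).1).1
          have h2 := (hU u' (Finset.mem_filter.1 hu').1).1
          exact (List.append_inj he (by rw [h1, h2])).1.symm
      _ ≤ light.card := by
          apply Finset.card_le_card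
          intro x hx
          obtain ⟨u, _, hx⟩ := Finset.mem_biUnion.1 hx
          obtain ⟨v, hv, rfl⟩ := Finset.mem_image.1 hx
          exact (Finset.mem_filter.1 hv).2
  have hbad2 : bad.card ≤ 2 ^ M := by
    have h1 : bad.card * 2 ^ kD ≤ 2 ^ M * 2 ^ kD := by
      calc bad.card * 2 ^ kD ≤ 2 ^ t * 2 ^ k2 := hbc.trans hlc
        _ = 2 ^ M * 2 ^ kD := by rw [← pow_add, ← pow_add, hb, add_comm]
    exact Nat.le_of_mul_le_mul_right h1 (Nat.two_pow_pos _)
  have hgood2 : 2 ^ M ≤ good.card := by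
    rw [pow_succ] at hM
    omega
  -- every good `u` has many seeds
  have hgl : ∀ u ∈ good, u.length = i := fun u hu => (hU u (Finset.mem_filter.1 hu).1).1
  have hle := hEb W (good.image (padTo (2 ^ g))) (Finset.filter_subset _ _) (by
      intro y hy
      obtain ⟨u, hu, rfl⟩ := Finset.mem_image.1 hy
      rw [hmem]
      exact padTo_length _ _ (by rw [hgl u hu]; exact hi.le)) (by
      intro y hy
      obtain ⟨u, hu, rfl⟩ := Finset.mem_image.1 hy
      obtain ⟨huU, hul⟩ := Finset.mem_filter.1 hu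
      obtain ⟨hui, huc⟩ := hU u huU
      push Not at hul
      set V := ((strs (2 ^ g - i)).filter (fun v => u ++ v ∈ X)) \ L u with hV
      have hVc : 2 ^ kD ≤ V.card := by
        have h1 : ((strs (2 ^ g - i)).filter (fun v => u ++ v ∈ X)).card - (L u).card ≤ V.card :=
          Finset.le_card_sdiff _ _
        omega
      have hVl : ∀ v ∈ V, v.length = 2 ^ g - i := by
        intro v hv
        rw [← hmem]
        exact (Finset.mem_filter.1 (Finset.mem_sdiff.1 hv).1).1
      have hVi : (V.image (padTo (2 ^ g))).card = V.card := by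
        apply Finset.card_image_of_injOn
        intro v hv v' hv' e
        exact padTo_inj _ _ _ (by rw [hVl v hv, hVl v' hv']) e
      have h7 := hes (V.image (padTo (2 ^ g))) (by
        intro y hy
        obtain ⟨v, hv, rfl⟩ := Finset.mem_image.1 hy
        rw [hmem]
        exact padTo_length _ _ (by rw [hVl v hv]; exact Nat.sub_le _ _)) (by rw [hVi]; exact hVc)
      have hsub : (V.image (padTo (2 ^ g))).biUnion (fun x => (esD x).toFinset) ⊆
          (strs (dd g)).filter (fun s => E1 g B t (padTo (2 ^ g) u) s ∈ W) := by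
        intro s hs
        obtain ⟨y, hy, hs⟩ := Finset.mem_biUnion.1 hs
        obtain ⟨v, hv, rfl⟩ := Finset.mem_image.1 hy
        rw [List.mem_toFinset] at hs
        refine Finset.mem_filter.2 ⟨by rw [hmem, ← hD]; exact hesl _ s hs, ?_⟩
        obtain ⟨hv1, hv2⟩ := Finset.mem_sdiff.1 hv
        obtain ⟨hvs, hvX⟩ := Finset.mem_filter.1 hv1
        by_contra hnW
        apply hv2
        refine Finset.mem_filter.2 ⟨hvs, ?_⟩
        refine Finset.mem_biUnion.2 ⟨E1 g B t (padTo (2 ^ g) u) s, ?_, ?_⟩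
        · rw [Finset.mem_sdiff, hmem]
          exact ⟨hEl _ _, hnW⟩
        · refine Finset.mem_filter.2 ⟨hvX, s, ?_, ?_⟩
          · rw [← hui, List.drop_left]
            exact hs
          · rw [← hui, List.take_left]
      have h8 := Finset.card_le_card hsub
      rw [hD] at h7
      have h9 : 8 * W.card * 2 ^ dd g + 2 ^ t * 2 ^ dd g ≤ 7 * 2 ^ t * 2 ^ dd g := by
        have : 8 * W.card ≤ 6 * 2 ^ t := by omega
        calc 8 * W.card * 2 ^ dd g + 2 ^ t * 2 ^ dd g ≤
              6 * 2 ^ t * 2 ^ dd g + 2 ^ t * 2 ^ dd g :=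
              Nat.add_le_add_right (Nat.mul_le_mul_right _ this) _
          _ = 7 * 2 ^ t * 2 ^ dd g := by ring
      calc 8 * W.card * 2 ^ dd g + 2 ^ t * 2 ^ dd g ≤ 7 * 2 ^ t * 2 ^ dd g := h9
        _ = 2 ^ t * (7 * 2 ^ dd g) := by ring
        _ ≤ 2 ^ t * (8 * ((strs (dd g)).filter (fun s => E1 g B t (padTo (2 ^ g) u) s ∈ W)).card) :=
            Nat.mul_le_mul_left _ (by omega)
        _ = 8 * 2 ^ t * ((strs (dd g)).filter (fun s => E1 g B t (padTo (2 ^ g) u) s ∈ W)).card := by
            ring)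
  have hgi : (good.image (padTo (2 ^ g))).card = good.card := by
    apply Finset.card_image_of_injOn
    intro u hu u' hu' e
    exact padTo_inj _ _ _ (by rw [hgl u hu, hgl u' hu']) e
  rw [hgi] at hle
  have : 2 ^ (3 * g + 8 + dd g + B) < 2 ^ M := Nat.pow_lt_pow_right (by norm_num) hB
  omega

theorem CMP_proof (hS : S_STR) (hP : S_PRM) (hE : S_E1) (hES : S_ES) (hSP : S_SPL) (hN : S_NUM) : S_CMP := by
  classical
  intro g ν hg hν hν2
  have hS' := hS
  obtain ⟨_, _, _, hmem, hcard⟩ := hS'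
  obtain ⟨E, r, hkap, hK2, hpad, htau, hνr, hB0⟩ := params hN g ν hg hν
  have hnum := hN g hg
  obtain ⟨_, _, _, htau28, _, _, _⟩ := hnum
  have hB0' : B0 g ν - 2 = r + 1 := by omega
  obtain ⟨hEl, hEb⟩ := hE g (B0 g ν) (B0 g ν - 2) (by omega) (by omega) (by omega)
  have hdd28 : dd g ≤ 2 ^ 28 * g ^ 3 := by
    calc dd g ≤ tau2 g := by omega
      _ ≤ _ := htau28
  have hdd1 : 1 ≤ dd g := by
    unfold dd
    apply Nat.mul_pos (by unfold gg; omega)
    apply Nat.mul_pos (by unfold aa; omega)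
    exact (hP (aa g) (by unfold aa; omega)).1.pos
  obtain ⟨hl1, hd1⟩ := hES g (dd g) hg hdd1 hdd28
  obtain ⟨hl2, hd2⟩ := hES g (tau2 g) hg (by omega) htau28
  refine ⟨?_, ?_⟩
  · intro x z hz
    obtain ⟨i, _, s, _, z', hz', rfl⟩ := (mem_compo g ν x z).1 hz
    rw [List.length_append, hEl, hl2 x z' hz']
    omega
  · intro X hX hXc
    have h2K : 2 ≤ 2 ^ K2 g := by
      calc 2 = 2 ^ 1 := rfl
        _ ≤ 2 ^ K2 g := Nat.pow_le_pow_right (by norm_num) (by omega)
    obtain ⟨i, hi, U, hU, hUc⟩ := hSP (2 ^ g) (2 ^ K2 g) X hX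
      h2K
      (le_trans (Nat.pow_le_pow_right (by norm_num) (by omega)) hXc)
    have hUM : 2 ^ (dd g + 3 * g + 12 + r + 1) ≤ U.card := by
      have h1 : 2 ^ (ν - g - 4) ≤ 2 * 2 ^ K2 g * 2 ^ g * U.card := hXc.trans hUc
      have h2 : 2 ^ (ν - g - 4) = 2 * 2 ^ K2 g * 2 ^ g * 2 ^ (dd g + 3 * g + 12 + r + 1) := by
        have e : ν - g - 4 = dd g + E + 13 + 1 + g + (dd g + 3 * g + 12 + r + 1) := by omega
        rw [hK2, ← pow_succ', ← pow_add, ← pow_add, e]
      rw [h2] at h1
      exact Nat.le_of_mul_le_mul_left h1 (by positivity)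
    have hcore := core hS g (B0 g ν) (B0 g ν - 2) (dd g) (kap g (tau2 g)) i hi hEl hEb rfl
      (es g (dd g)) hl1 (kap g (dd g)) hd1 X hX U (by
        intro u hu
        obtain ⟨h1, h2⟩ := hU u hu
        refine ⟨h1, ?_⟩
        have e : 2 ^ K2 g = 2 * 2 ^ kap g (dd g) := by
          rw [hK2, hkap, ← pow_succ']
        rw [← e]
        exact h2) (dd g + 3 * g + 12 + r) hUM (by rw [hkap, hkap, htau]; omega) (by omega)
    set Xz : List Bool → Finset (List Bool) := fun z => X.filter (fun x =>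
      Hit g (B0 g ν) (B0 g ν - 2) i (es g (dd g)) x z) with hXz
    set W := (strs (B0 g ν - 2)).filter (fun z => 2 ^ kap g (tau2 g) ≤ (Xz z).card) with hW
    set O := X.biUnion (fun x => (compo g ν x).toFinset) with hO
    have hsub : W.biUnion (fun z => ((Xz z).biUnion (fun x => (es g (tau2 g) x).toFinset)).image
        (fun z' => z ++ z')) ⊆ O := by
      intro y hy
      obtain ⟨z, hz, hy⟩ := Finset.mem_biUnion.1 hy
      obtain ⟨z', hz', rfl⟩ := Finset.mem_image.1 hy
      obtain ⟨x, hx, hz'⟩ := Finset.mem_biUnion.1 hz'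
      rw [List.mem_toFinset] at hz'
      obtain ⟨hxX, s, hs, hsz⟩ := Finset.mem_filter.1 hx
      refine Finset.mem_biUnion.2 ⟨x, hxX, ?_⟩
      rw [List.mem_toFinset, mem_compo]
      exact ⟨i, hi, s, hs, z', hz', by rw [hsz]⟩
    have hc1 := Finset.card_le_card hsub
    rw [Finset.card_biUnion (by
      intro z hz z1 hz1 hne
      rw [Function.onFun, Finset.disjoint_left]
      intro x hx hx'
      obtain ⟨v, _, rfl⟩ := Finset.mem_image.1 hx
      obtain ⟨v', _, he⟩ := Finset.mem_image.1 hx'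
      apply hne
      have h1 := (hmem _ _).1 (Finset.mem_filter.1 hz).1
      have h2 := (hmem _ _).1 (Finset.mem_filter.1 hz1).1
      exact (List.append_inj he (by rw [h1, h2])).1.symm)] at hc1
    have hc2 : W.card * (7 * 2 ^ tau2 g) ≤ 8 * O.card := by
      calc W.card * (7 * 2 ^ tau2 g) = ∑ z ∈ W, 7 * 2 ^ tau2 g := by
            rw [Finset.sum_const, smul_eq_mul]
        _ ≤ ∑ z ∈ W, 8 * (((Xz z).biUnion (fun x => (es g (tau2 g) x).toFinset)).image
              (fun z' => z ++ z')).card := by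
            apply Finset.sum_le_sum
            intro z hz
            rw [Finset.card_image_of_injective _ (List.append_right_injective z)]
            exact (hd2 (Xz z) ((Finset.filter_subset _ _).trans hX) (Finset.mem_filter.1 hz).2).le
        _ ≤ 8 * O.card := by
            rw [← Finset.mul_sum]
            exact Nat.mul_le_mul_left _ hc1
    have hexp : 2 ^ (ν - padN g) = 2 ^ (B0 g ν - 2) * 2 ^ tau2 g := by
      have e : ν - padN g = B0 g ν - 2 + tau2 g := by omega
      rw [← pow_add, e]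
    rw [hexp]
    have hpos : 0 < 2 ^ (B0 g ν - 2) * 2 ^ tau2 g := by positivity
    have h21 : 21 * (2 ^ (B0 g ν - 2) * 2 ^ tau2 g) ≤ 4 * (W.card * (7 * 2 ^ tau2 g)) := by
      calc 21 * (2 ^ (B0 g ν - 2) * 2 ^ tau2 g) = (3 * 2 ^ (B0 g ν - 2)) * (7 * 2 ^ tau2 g) := by ring
        _ ≤ (4 * W.card) * (7 * 2 ^ tau2 g) := Nat.mul_le_mul_right _ hcore
        _ = 4 * (W.card * (7 * 2 ^ tau2 g)) := by ring
    omega

end Pool.Agent.H654R5.PT.CMP
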