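import Pool.Agent.H654R5.PT.Stm

/-! Two codewords are almost orthogonal. -/

namespace Pool.Agent.H654R5.PT.COR

open Pool.Agent.NPC

theorem sum_strs_add {M : Type*} [AddCommMonoid M] (hS : S_STR) (a b : ℕ) (F : List Bool → M) :
    ∑ z ∈ strs (a + b), F z = ∑ z1 ∈ strs a, ∑ z2 ∈ strs b, F (z1 ++ z2) := by
  obtain ⟨_, _, _, hmem, _⟩ := hS
  rw [← Finset.sum_product']
  symm
  refine Finset.sum_nbij' (fun p => p.1 ++ p.2) (fun z => (z.take a, z.drop a)) ?_ ?_ ?_ ?_ ?_
  · rintro ⟨z1, z2⟩ h
    rw [Finset.mem_product, hmem, hmem] at h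
    rw [hmem]
    simp [h.1, h.2]
  · intro z h
    rw [hmem] at h
    rw [Finset.mem_product, hmem, hmem]
    simp [h]
  · rintro ⟨z1, z2⟩ h
    rw [Finset.mem_product, hmem, hmem] at h
    ext1
    · simp only
      rw [← h.1, List.take_left]
    · simp only
      rw [← h.1, List.drop_left]
  · intro z _
    exact List.take_append_drop a z
  · intro p _
    rfl

theorem valB_inj : ∀ (l l' : List Bool), l.length = l'.length → valB l = valB l' → l = l' := by
  intro l
  induction l with
  | nil =>
    intro l' h _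
    exact (List.length_eq_zero_iff.1 h.symm).symm
  | cons b l ih =>
    intro l' h hv
    cases l' with
    | nil => simp at h
    | cons b' l' =>
      simp only [valB_cons] at hv
      simp only [List.length_cons, add_left_inj] at h
      have hb : b = b' := by
        cases b <;> cases b' <;> simp at hv ⊢ <;> omega
      subst hb
      have : valB l = valB l' := by omega
      rw [ih l' h this]

theorem COR_proof (hS : S_STR) (hP : S_PRM) (hR : S_RES) (hH : S_HAD) : S_COR := by
  intro g x y hx hy hxy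
  have hS' := hS
  obtain ⟨_, _, _, hmem, hcard⟩ := hS'
  have hpr := hP (2 ^ bq g) (by
    unfold bq
    calc 2 = 2 ^ 1 := by norm_num
      _ ≤ 2 ^ (3 * g + 10) := Nat.pow_le_pow_right (by norm_num) (by omega))
  change (pr g).Prime ∧ 2 ^ bq g ≤ pr g ∧ pr g < 2 * 2 ^ bq g at hpr
  obtain ⟨hp1, hp2, hp3⟩ := hpr
  obtain ⟨hrx, hrxy, _⟩ := hR (pr g) x y (2 ^ bq g) hp1 hp2 (by rw [hx, hy])
  obtain ⟨hry, _, _⟩ := hR (pr g) y x (2 ^ bq g) hp1 hp2 (by rw [hx, hy])
  have hcnt := hrxy hxy
  have haa : aa g = bq g + (3 * g + 11) := by unfold aa bq; ring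
  have hk : 2 * 2 ^ bq g = 2 ^ (3 * g + 11) := by unfold bq; ring
  rw [haa, sum_strs_add hS]
  have hin : ∀ z1 ∈ strs (bq g), ∑ z2 ∈ strs (3 * g + 11),
      sg (code g x (z1 ++ z2)) * sg (code g y (z1 ++ z2)) =
      if resid (pr g) x (valB z1) = resid (pr g) y (valB z1) then (2 : ℤ) ^ (3 * g + 11) else 0 := by
    intro z1 hz1
    rw [hmem] at hz1
    have e : ∀ z2, ∀ w, code g w (z1 ++ z2) = dot (resid (pr g) w (valB z1)) z2 := by
      intro z2 w
      unfold code
      rw [← hz1, List.take_left, List.drop_left]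
    simp only [e]
    have hu : resid (pr g) x (valB z1) < 2 ^ (3 * g + 11) := by
      have := hrx (valB z1)
      omega
    have hv : resid (pr g) y (valB z1) < 2 ^ (3 * g + 11) := by
      have := hry (valB z1)
      omega
    by_cases huv : resid (pr g) x (valB z1) = resid (pr g) y (valB z1)
    · rw [if_pos huv, huv]
      have e1 : ∀ z2 ∈ strs (3 * g + 11), sg (dot (resid (pr g) y (valB z1)) z2) *
          sg (dot (resid (pr g) y (valB z1)) z2) = 1 := by
        intro z2 _
        unfold sg
        split <;> norm_num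
      rw [Finset.sum_congr rfl e1]
      simp [hcard]
    · rw [if_neg huv]
      exact (hH (3 * g + 11) _ _ hu hv).1 huv
  rw [Finset.sum_congr rfl hin, ← Finset.sum_filter, Finset.sum_const, nsmul_eq_mul, abs_mul,
    Nat.abs_cast, abs_of_nonneg (show (0 : ℤ) ≤ 2 ^ (3 * g + 11) by positivity)]
  have hc : ((strs (bq g)).filter (fun z1 => resid (pr g) x (valB z1) =
      resid (pr g) y (valB z1))).card ≤ 2 ^ g := by
    rw [← hx]
    refine le_trans ?_ hcnt.le
    apply Finset.card_le_card_of_injOn valB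
    · intro z hz
      rw [Finset.mem_coe, Finset.mem_filter, hmem] at hz
      rw [Finset.mem_coe, Finset.mem_filter, Finset.mem_range]
      refine ⟨?_, hz.2⟩
      rw [← hz.1]
      exact valB_lt z
    · intro z hz z' hz' h
      rw [Finset.mem_coe, Finset.mem_filter, hmem] at hz hz'
      exact valB_inj z z' (by rw [hz.1, hz'.1]) h
  have hc' : ((((strs (bq g)).filter (fun z1 => resid (pr g) x (valB z1) =
      resid (pr g) y (valB z1))).card : ℕ) : ℤ) ≤ 2 ^ g := by exact_mod_cast hc
  calc _ ≤ (2 : ℤ) ^ g * 2 ^ (3 * g + 11) * 2 ^ (2 * g + 10) := by gcongr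
    _ = 2 ^ (bq g + (3 * g + 11)) := by
        rw [← pow_add, ← pow_add]
        congr 1
        unfold bq
        ring

end Pool.Agent.H654R5.PT.COR
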