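import Pool.Agent.H654R5.PT.Stm

/-! The disperser for small sources. -/

namespace Pool.Agent.H654R5.PT.ES

open Pool.Agent.NPC

theorem padTo_length (k : ℕ) (x : List Bool) (h : x.length ≤ k) : (padTo k x).length = k := by
  unfold padTo
  simp
  omega

theorem padTo_inj (k : ℕ) (x y : List Bool) (h : x.length = y.length) (e : padTo k x = padTo k y) :
    x = y := by
  unfold padTo at e
  exact (List.append_inj e h).1

theorem mem_es (hS : S_STR) (g τ : ℕ) (x z : List Bool) : z ∈ es g τ x ↔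
    ∃ h ∈ irrs (cS g), ∃ s ∈ strs (dd (gS g)),
      E1 (gS g) (τ + 2) τ (padTo (2 ^ gS g) (cond (kap g τ) (NN g) (cS g) h x)) s = z := by
  obtain ⟨hA, _, _, hmem, _⟩ := hS
  unfold es
  simp only [List.mem_flatMap, List.mem_map, hA, hmem]

theorem ES_proof (hS : S_STR) (hE : S_E1) (hC : S_CND) (hN : S_NUM) : S_ES := by
  intro g τ hg hτ hτ2
  have hS' := hS
  obtain ⟨hA, _, _, hmem, hcard⟩ := hS'
  obtain ⟨_, _, _, _, _, _, hnum⟩ := hN g hg
  obtain ⟨n1, n2, n3⟩ := hnum τ hτ2
  obtain ⟨hEl, hEb⟩ := hE (gS g) (τ + 2) τ hτ le_rfl n3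
  refine ⟨?_, ?_⟩
  · intro x z hz
    obtain ⟨h, _, s, _, rfl⟩ := (mem_es hS g τ x z).1 hz
    exact hEl _ _
  · intro X hX hXc
    obtain ⟨hcl, h, hh, hhc⟩ := hC g (kap g τ) (cS g) X hX (by unfold cS; omega) hXc n2
    by_contra hcon
    push Not at hcon
    set W := X.biUnion (fun x => (es g τ x).toFinset) with hW
    set Y0 := X.image (cond (kap g τ) (NN g) (cS g) h) with hY0
    have hY0l : ∀ y ∈ Y0, y.length = kap g τ * cS g := by
      intro y hy
      obtain ⟨x, _, rfl⟩ := Finset.mem_image.1 hy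
      exact hcl h hh x
    set Y := Y0.image (padTo (2 ^ gS g)) with hY
    have hYc : Y.card = Y0.card := by
      apply Finset.card_image_of_injOn
      intro y hy y' hy' e
      exact padTo_inj _ _ _ (by rw [hY0l y hy, hY0l y' hy']) e
    have hYs : Y ⊆ strs (2 ^ gS g) := by
      intro y hy
      obtain ⟨y0, hy0, rfl⟩ := Finset.mem_image.1 hy
      rw [hmem]
      exact padTo_length _ _ (by rw [hY0l y0 hy0]; exact n1)
    have hWs : W ⊆ strs τ := by
      intro z hz
      obtain ⟨x, hx, hz⟩ := Finset.mem_biUnion.1 hz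
      rw [List.mem_toFinset, mem_es hS] at hz
      obtain ⟨h', _, s, _, rfl⟩ := hz
      rw [hmem]
      exact hEl _ _
    have hb := hEb W Y hWs hYs (by
      intro y hy
      have hall : (strs (dd (gS g))).filter (fun s => E1 (gS g) (τ + 2) τ y s ∈ W) =
          strs (dd (gS g)) := by
        apply Finset.filter_true_of_mem
        intro s hs
        obtain ⟨y0, hy0, rfl⟩ := Finset.mem_image.1 hy
        obtain ⟨x, hx, rfl⟩ := Finset.mem_image.1 hy0
        refine Finset.mem_biUnion.2 ⟨x, hx, ?_⟩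
        rw [List.mem_toFinset, mem_es hS]
        exact ⟨h, hh, s, hs, rfl⟩
      rw [hall, hcard]
      have h1 : 8 * W.card * 2 ^ dd (gS g) ≤ 7 * 2 ^ τ * 2 ^ dd (gS g) :=
        Nat.mul_le_mul_right _ hcon
      have h2 : 7 * 2 ^ τ * 2 ^ dd (gS g) + 2 ^ τ * 2 ^ dd (gS g) =
          8 * 2 ^ τ * 2 ^ dd (gS g) := by ring
      omega)
    have hk : kap g τ = 3 * gS g + 8 + dd (gS g) + (τ + 2) + 2 := by unfold kap; ring
    rw [hYc] at hb
    rw [hk, pow_add] at hhc
    have hpos : 0 < 2 ^ (3 * gS g + 8 + dd (gS g) + (τ + 2)) := Nat.two_pow_pos _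
    omega

end Pool.Agent.H654R5.PT.ES
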